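import Pool.Agent.E8helper46.PF.Stm4

set_option autoImplicit false

/-!
# S_MODP: choice of the prime
-/

namespace Pool.Agent.E8helper44.PF

open Finset
open Pool.Agent.E8helper46.PF

/-- exponent sums -/
def ab (r : ℕ) : FreeGroup (Fin r) →* Multiplicative (Fin r → ℤ) :=
  FreeGroup.lift fun i => Multiplicative.ofAdd (Pi.single i 1)

/-- the vector of the exponent sums -/
def nv {r : ℕ} (c : FreeGroup (Fin r)) : Fin r → ℤ := Multiplicative.toAdd (ab r c)

lemma nv_mul {r : ℕ} (a b : FreeGroup (Fin r)) : nv (a * b) = nv a + nv b := by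
  unfold nv; rw [map_mul, toAdd_mul]

lemma nv_inv {r : ℕ} (a : FreeGroup (Fin r)) : nv a⁻¹ = - nv a := by
  unfold nv; rw [map_inv, toAdd_inv]

lemma nv_pow {r : ℕ} (a : FreeGroup (Fin r)) (k : ℕ) : nv (a ^ k) = k • nv a := by
  unfold nv; rw [map_pow, toAdd_pow]

lemma nv_one {r : ℕ} : nv (1 : FreeGroup (Fin r)) = 0 := by
  unfold nv; rw [map_one, toAdd_one]

/-- a word with given exponent sums -/
def wd {r : ℕ} (v : Fin r → ℤ) : FreeGroup (Fin r) := (List.ofFn fun i => (FreeGroup.of i) ^ (v i)).prod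

lemma nv_wd {r : ℕ} (v : Fin r → ℤ) : nv (wd v) = v := by
  unfold nv wd
  rw [map_list_prod, List.map_ofFn, List.prod_ofFn, toAdd_prod]
  funext j
  rw [Finset.sum_apply, Finset.sum_eq_single j]
  · simp [ab]
  · intro i _ hij
    simp [ab, Pi.single_eq_of_ne hij.symm]
  · intro h
    exact absurd (mem_univ j) h

/-- from the exponent sums to the abelianization -/
def psi (r : ℕ) : Multiplicative (Fin r → ℤ) →* Abelianization (FreeGroup (Fin r)) where
  toFun v := ∏ i, (Abelianization.of (FreeGroup.of i)) ^ (Multiplicative.toAdd v i)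
  map_one' := by simp
  map_mul' a b := by simp [zpow_add, Finset.prod_mul_distrib]

lemma psi_ab (r : ℕ) : (psi r).comp (ab r) = Abelianization.of := by
  refine FreeGroup.ext_hom _ _ fun i => ?_
  show ∏ j, (Abelianization.of (FreeGroup.of j)) ^ (Multiplicative.toAdd (ab r (FreeGroup.of i)) j) = _
  rw [Finset.prod_eq_single i]
  · simp [ab]
  · intro j _ hij
    simp [ab, Pi.single_eq_of_ne hij]
  · intro h
    exact absurd (mem_univ i) h

lemma mem_comm_iff {r : ℕ} (c : FreeGroup (Fin r)) : c ∈ commutator (FreeGroup (Fin r)) ↔ nv c = 0 := by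
  constructor
  · intro h
    have h1 := Abelianization.commutator_subset_ker (ab r) h
    rw [MonoidHom.mem_ker] at h1
    unfold nv
    rw [h1]
    rfl
  · intro h
    have h1 : ab r c = 1 := by
      have : Multiplicative.toAdd (ab r c) = 0 := h
      exact this
    have h2 : Abelianization.of c = 1 := by
      rw [← psi_ab r, MonoidHom.comp_apply, h1, map_one]
    rwa [← MonoidHom.mem_ker, Abelianization.ker_of] at h2

lemma comm_le_phi (p : ℕ) {G : Type*} [Group G] : commutator G ≤ phi p (⊤ : Subgroup G) := by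
  rw [commutator_eq_closure]
  refine Subgroup.closure_mono fun x hx => Or.inl ?_
  obtain ⟨a, b, rfl⟩ := hx
  exact ⟨a, trivial, b, trivial, by rw [commutatorElement_def]⟩

lemma dvd_nv_of_mem {r p : ℕ} {c : FreeGroup (Fin r)} (hc : c ∈ phi p (⊤ : Subgroup (FreeGroup (Fin r)))) :
    ∀ i, (p : ℤ) ∣ nv c i := by
  unfold phi at hc
  induction hc using Subgroup.closure_induction with
  | mem x hx =>
    intro i
    rcases hx with ⟨a, _, b, _, rfl⟩ | ⟨a, _, rfl⟩
    · rw [nv_mul, nv_mul, nv_mul, nv_inv, nv_inv]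
      simp
    · rw [nv_pow]
      simp
  | one =>
    intro i
    rw [nv_one]
    simp
  | mul x y _ _ hx hy =>
    intro i
    rw [nv_mul]
    exact dvd_add (hx i) (hy i)
  | inv x _ hx =>
    intro i
    rw [nv_inv]
    exact (hx i).neg_right

lemma mem_of_dvd_nv {r p : ℕ} {c : FreeGroup (Fin r)} (hc : ∀ i, (p : ℤ) ∣ nv c i) :
    c ∈ phi p (⊤ : Subgroup (FreeGroup (Fin r))) := by
  have h1 : c * (wd (nv c))⁻¹ ∈ commutator (FreeGroup (Fin r)) := by
    rw [mem_comm_iff, nv_mul, nv_inv, nv_wd, add_neg_cancel]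
  have h2 : wd (nv c) ∈ phi p (⊤ : Subgroup (FreeGroup (Fin r))) := by
    unfold wd
    refine Subgroup.list_prod_mem _ fun x hx => ?_
    rw [List.mem_ofFn] at hx
    obtain ⟨i, rfl⟩ := hx
    obtain ⟨k, hk⟩ := hc i
    refine Subgroup.subset_closure (Or.inr ⟨(FreeGroup.of i) ^ k, trivial, ?_⟩)
    rw [hk, mul_comm, zpow_mul, zpow_natCast]
  have h3 := mul_mem (comm_le_phi p h1) h2
  simpa using h3

/-- the matrix of the induced map of abelianizations -/
def mat {s r : ℕ} (φ : FreeGroup (Fin s) →* FreeGroup (Fin r)) : Matrix (Fin r) (Fin s) ℤ :=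
  fun i j => nv (φ (FreeGroup.of j)) i

lemma nv_map {s r : ℕ} (φ : FreeGroup (Fin s) →* FreeGroup (Fin r)) (c : FreeGroup (Fin s)) :
    nv (φ c) = (mat φ).mulVec (nv c) := by
  let m : Multiplicative (Fin s → ℤ) →* Multiplicative (Fin r → ℤ) :=
    AddMonoidHom.toMultiplicative ((mat φ).mulVecLin.toAddMonoidHom)
  have h : (ab r).comp φ = m.comp (ab s) := by
    refine FreeGroup.ext_hom _ _ fun j => ?_
    have h1 : ab s (FreeGroup.of j) = Multiplicative.ofAdd (Pi.single j 1) := by simp [ab]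
    show ab r (φ (FreeGroup.of j)) = Multiplicative.ofAdd ((mat φ).mulVec (Multiplicative.toAdd (ab s (FreeGroup.of j))))
    rw [h1, toAdd_ofAdd, Matrix.mulVec_single_one]
    rfl
  have h2 := DFunLike.congr_fun h c
  exact congrArg Multiplicative.toAdd h2

/-- a left inverse up to an integer factor -/
lemma exists_left {s r : ℕ} (M : Matrix (Fin r) (Fin s) ℤ) (hM : ∀ x, M.mulVec x = 0 → x = 0) :
    ∃ (N : Matrix (Fin s) (Fin r) ℤ) (d : ℤ), d ≠ 0 ∧ N * M = d • (1 : Matrix (Fin s) (Fin s) ℤ) := by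
  refine ⟨(M.transpose * M).adjugate * M.transpose, (M.transpose * M).det, ?_, ?_⟩
  · intro h0
    obtain ⟨v, hv, hv0⟩ := Matrix.exists_mulVec_eq_zero_iff.2 h0
    apply hv
    apply hM
    rw [← Matrix.mulVec_mulVec] at hv0
    have h1 : dotProduct v (M.transpose.mulVec (M.mulVec v)) = 0 := by rw [hv0]; simp
    rw [Matrix.dotProduct_mulVec, Matrix.vecMul_transpose] at h1
    exact dotProduct_self_eq_zero.1 h1
  · rw [Matrix.mul_assoc, Matrix.adjugate_mul]

theorem t_MODP : S_MODP := by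
  intro J _ r s φ hφ
  have : Fintype J := Fintype.ofFinite J
  have h1 : ∀ i, ∃ (N : Matrix (Fin (s i)) (Fin (r i)) ℤ) (d : ℤ), d ≠ 0 ∧
      N * mat (φ i) = d • (1 : Matrix (Fin (s i)) (Fin (s i)) ℤ) := by
    intro i
    refine exists_left _ fun x hx => ?_
    have h2 := hφ i (wd x) (by rw [mem_comm_iff, nv_map, nv_wd, hx])
    rwa [mem_comm_iff, nv_wd] at h2
  choose N d hd hN using h1
  obtain ⟨p, hp1, hp⟩ := Nat.exists_infinite_primes ((∏ i, (d i).natAbs) + 1)
  have hpos : 0 < ∏ i, (d i).natAbs := Finset.prod_pos fun i _ => Int.natAbs_pos.2 (hd i)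
  refine ⟨p, hp, fun i c hc => ?_⟩
  have hpd : ¬ (p : ℤ) ∣ d i := by
    intro h
    have h2 : p ∣ (d i).natAbs := Int.natCast_dvd.1 h
    have h3 : p ∣ ∏ i, (d i).natAbs := h2.trans (Finset.dvd_prod_of_mem _ (mem_univ i))
    have := Nat.le_of_dvd hpos h3
    omega
  refine mem_of_dvd_nv fun j => ?_
  have h3 := dvd_nv_of_mem hc
  rw [nv_map] at h3
  have h4 : (N i).mulVec ((mat (φ i)).mulVec (nv c)) = d i • nv c := by
    rw [Matrix.mulVec_mulVec, hN i, Matrix.smul_mulVec, Matrix.one_mulVec]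
  have h5 : (p : ℤ) ∣ (d i • nv c) j := by
    rw [← h4]
    show (p : ℤ) ∣ ∑ k, N i j k * (mat (φ i)).mulVec (nv c) k
    exact Finset.dvd_sum fun k _ => (h3 k).mul_left _
  rw [Pi.smul_apply, smul_eq_mul] at h5
  exact ((Nat.prime_iff_prime_int.1 hp).dvd_or_dvd h5).resolve_left hpd

end Pool.Agent.E8helper44.PF
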